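import Pool.Agent.V8H70.TS.Circle

/-!
# Every `C^1` action of the Thompson-Stein group `T(2,3)` on the circle is trivial

The circle is `AddCircle (1:ℝ) = ℝ/ℤ`. The predicates `IsT23` (membership in `T(2,3)`) and `IsC1`
(existence of a lift of class `C^1`) are defined in `Pool.Agent.V8H70.TS.Defs`.
-/

set_option autoImplicit false

namespace Pool.Agent.Results.MP_9d59aa_al.TrivialC1Actions

open Pool.Agent.V8H70.TS

/-- The Thompson-Stein group `T(2,3)`: piecewise linear homeomorphisms of the circle `ℝ/ℤ` with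
finitely many break points, all in the image of `ℤ[1/6]`, with slopes of the form `2^a 3^b`, and
mapping the image of `ℤ[1/6]` onto itself. -/
def T23 : Subgroup (AddCircle (1:ℝ) ≃ₜ AddCircle (1:ℝ)) where
  carrier := {σ | IsT23 σ}
  one_mem' := (isT23_iff 1).2 ⟨1, map_one _⟩
  mul_mem' := by
    intro σ τ hσ hτ
    obtain ⟨g, rfl⟩ := (isT23_iff σ).1 hσ
    obtain ⟨h, rfl⟩ := (isT23_iff τ).1 hτ
    exact (isT23_iff _).2 ⟨g * h, map_mul _ _ _⟩
  inv_mem' := by
    intro σ hσ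
    obtain ⟨g, rfl⟩ := (isT23_iff σ).1 hσ
    exact (isT23_iff _).2 ⟨g⁻¹, map_inv _ _⟩

/-- The group of `C^1` diffeomorphisms of the circle (preserving the orientation or not):
homeomorphisms such that they and their inverses have lifts to the line of class `C^1`. -/
def Diff1 : Subgroup (AddCircle (1:ℝ) ≃ₜ AddCircle (1:ℝ)) where
  carrier := {σ | IsC1 σ ∧ IsC1 σ⁻¹}
  one_mem' := by
    have h : IsC1 1 := ⟨fun x => x, contDiff_id, fun _ => rfl⟩
    exact ⟨h, by rw [inv_one]; exact h⟩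
  mul_mem' := by
    rintro σ τ ⟨⟨F, hF, hF'⟩, ⟨F1, hF1, hF1'⟩⟩ ⟨⟨G, hG, hG'⟩, ⟨G1, hG1, hG1'⟩⟩
    refine ⟨⟨fun x => F (G x), hF.comp hG, isLift_mul hF' hG'⟩,
      ⟨fun x => G1 (F1 x), hG1.comp hF1, ?_⟩⟩
    rw [mul_inv_rev]
    exact isLift_mul hG1' hF1'
  inv_mem' := by
    rintro σ ⟨h1, h2⟩
    exact ⟨h2, by rw [inv_inv]; exact h1⟩

/-- **Main theorem.** Every homomorphism from the Thompson-Stein group `T(2,3)` to the group of
`C^1` diffeomorphisms of the circle is trivial. -/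
theorem result (ρ : T23 →* Diff1) (g : T23) : ρ g = 1 := by
  let c : ↥GG →* ↥T23 := circHom.codRestrict T23 (fun g => (isT23_iff _).2 ⟨g, rfl⟩)
  let ρ' : ↥GG →* (AddCircle (1:ℝ) ≃ₜ AddCircle (1:ℝ)) := (Diff1.subtype.comp ρ).comp c
  obtain ⟨h, hh⟩ := (isT23_iff _).1 g.2
  have hc : c h = g := Subtype.ext hh
  have htau : ρ' tau = 1 := by
    have h1 : c tau = 1 := Subtype.ext circHom_tau
    change ((ρ (c tau) : Diff1) : AddCircle (1:ℝ) ≃ₜ AddCircle (1:ℝ)) = 1
    rw [h1, map_one]; rfl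
  have h2 := circle_main ρ' htau (fun g => (ρ (c g)).2.1) h
  apply Subtype.ext
  change ((ρ g : Diff1) : AddCircle (1:ℝ) ≃ₜ AddCircle (1:ℝ)) = 1
  rw [← hc]
  exact h2

end Pool.Agent.Results.MP_9d59aa_al.TrivialC1Actions
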